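import Pool.Agent.Q162.MO.M5

/-!
# Rank-one convexity implies the quasiconvexity inequality for test maps that are affine on the
# level sets of a scalar function

Let `W` be any rank-one convex function on the real `2 × 2` matrices and `F₀` any matrix.  The
inequality `W(F₀) |Ω| ≤ ∫_Ω W(F₀ + ∇ϑ)` holds for every test map `ϑ(x) = G(u(x)) x + g(u(x))`, where
`u` is a Lipschitz function which vanishes off `Ω` and `t ↦ (G(t), g(t))` is a curve of class `C¹` of
affine maps, which is zero at `t = 0`.  Examples are `ϑ(x) = u(x) (E x + e)`, that is, all maps which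
are parallel to a given affine field, and `ϑ(x) = G(|x|) x` with any norm.  The gradients of such a
map can have all ranks and determinants of both signs.  The inequality is also stable under
refinement of the test map on open sets where it is affine.

Proof of the first part.  Let `W` be of class `C¹` and `A(t) = F₀ + G(t)`.  The gradient is `A(u)`
plus the rank-one matrix `(G'(u) x + g'(u)) ⊗ ∇u`, so that `W(F₀ + ∇ϑ) - W(F₀)` is at least
`W(A(u)) - W(F₀) + DW(A(u))[(G'(u) x + g'(u)) ⊗ ∇u]`.  This is the divergence of the Lipschitz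
vector field `V_j(x) = ∫_0^{u(x)} ∑_i DW(A(s))_ij (G'(s) x + g'(s))_i ds`, which vanishes off `Ω`.
The general case follows by mollification of `W`.
-/

set_option autoImplicit false

open MeasureTheory Matrix Pool.Agent.Helper188.Morrey

namespace Pool.Agent.Results.MP_515557_an.AffineOnLevelSets

/-- The test map `ϑ` is affine on the level sets of a Lipschitz function `u` which vanishes off `Ω`:
`ϑ(x) = G(u(x)) x + g(u(x))` with a curve `(G, g)` of class `C¹` of affine maps, zero at `0`. -/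
def AffineOnLevels (Ω : Set (Fin 2 → ℝ)) (ϑ : (Fin 2 → ℝ) → (Fin 2 → ℝ)) : Prop :=
  ∃ (u : (Fin 2 → ℝ) → ℝ) (G : ℝ → Matrix (Fin 2) (Fin 2) ℝ) (g : ℝ → (Fin 2 → ℝ)),
    (∃ K, LipschitzWith K u) ∧ (∀ x, x ∉ Ω → u x = 0) ∧
    (∀ i j, ContDiff ℝ 1 fun t => G t i j) ∧ (∀ i, ContDiff ℝ 1 fun t => g t i) ∧
    G 0 = 0 ∧ g 0 = 0 ∧ ∀ x, ϑ x = G (u x) *ᵥ x + g (u x)

/-- The quasiconvexity inequality holds for the test map `ϑ` on `Ω`, for every rank-one convex
function `W` and every matrix `F₀`. -/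
def Inequality (Ω : Set (Fin 2 → ℝ)) (ϑ : (Fin 2 → ℝ) → (Fin 2 → ℝ)) : Prop :=
  ∀ W : Matrix (Fin 2) (Fin 2) ℝ → ℝ, RankOneConvex W → ∀ F₀ : Matrix (Fin 2) (Fin 2) ℝ,
    W F₀ * (volume Ω).toReal ≤ ∫ x in Ω, W (F₀ + grad ϑ x)

/-- **Rank-one convexity and test maps that are affine on level sets.** -/
theorem result (Ω : Set (Fin 2 → ℝ)) (hΩ : IsOpen Ω) (hb : Bornology.IsBounded Ω) :
    -- maps that are affine on the level sets of a scalar function
    (∀ ϑ, AffineOnLevels Ω ϑ →
      (∃ K, LipschitzWith K ϑ) ∧ (∀ x, x ∉ Ω → ϑ x = 0) ∧ Inequality Ω ϑ) ∧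
    -- in particular all maps which are a scalar function times an affine map
    (∀ (u : (Fin 2 → ℝ) → ℝ) (E : Matrix (Fin 2) (Fin 2) ℝ) (e : Fin 2 → ℝ),
      (∃ K, LipschitzWith K u) → (∀ x, x ∉ Ω → u x = 0) →
        Inequality Ω (fun x => u x • (E *ᵥ x + e))) ∧
    -- refinement on open sets where the map is affine
    (∀ ϑ η : (Fin 2 → ℝ) → (Fin 2 → ℝ), (∃ K, LipschitzWith K ϑ) → (∃ K, LipschitzWith K η) →
      ∀ (U : ℕ → Set (Fin 2 → ℝ)) (A : ℕ → Matrix (Fin 2) (Fin 2) ℝ) (b : ℕ → (Fin 2 → ℝ)),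
        (∀ n, IsOpen (U n)) → (∀ n, U n ⊆ Ω) → (∀ m n, m ≠ n → Disjoint (U m) (U n)) →
        (∀ n, ∀ x ∈ U n, ϑ x = A n *ᵥ x + b n) → (∀ x, (∀ n, x ∉ U n) → η x = 0) →
        Inequality Ω ϑ → (∀ n, Inequality (U n) ((U n).indicator η)) →
        Inequality Ω (fun x => ϑ x + η x)) := by
  have key : ∀ ϑ, AffineOnLevels Ω ϑ →
      (∃ K, LipschitzWith K ϑ) ∧ (∀ x, x ∉ Ω → ϑ x = 0) ∧ Inequality Ω ϑ := by
    rintro ϑ ⟨u, G, g, ⟨K, hK⟩, h0, hG, hg, hG0, hg0, hϑ⟩
    let d : Pool.Agent.Q162.MO.Dat :=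
      { u := u, K := K, Ω := Ω, G := fun t i j => G t i j,
        G' := fun t i j => deriv (fun s => G s i j) t, g := g,
        g' := fun t i => deriv (fun s => g s i) t,
        hu := hK, ho := hΩ, hb := hb, h0 := h0,
        hG := fun i j t => ((hG i j).differentiable (by norm_num) t).hasDerivAt,
        hg := fun i t => ((hg i).differentiable (by norm_num) t).hasDerivAt,
        cG := fun i j => (hG i j).continuous_deriv (by norm_num),
        cg := fun i => (hg i).continuous_deriv (by norm_num),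
        G0 := fun i j => by rw [hG0]; rfl, g0 := fun i => by rw [hg0]; rfl }
    have e : ϑ = d.th := by
      funext x i
      rw [hϑ x]
      simp only [Pool.Agent.Q162.MO.Dat.th, Pi.add_apply, Matrix.mulVec, dotProduct, d]
    rw [e]
    exact ⟨d.lip_th, fun x hx => d.th_off hx, fun W hW F => d.main hW F⟩
  refine ⟨key, fun u E e hu h0 => ?_, ?_⟩
  · refine (key _ ⟨u, fun t => t • E, fun t => t • e, hu, h0, fun i j => ?_, fun i => ?_, ?_, ?_,
      fun x => ?_⟩).2.2
    · simp only [Matrix.smul_apply, smul_eq_mul]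
      fun_prop
    · simp only [Pi.smul_apply, smul_eq_mul]
      fun_prop
    · exact zero_smul _ _
    · exact zero_smul _ _
    · rw [smul_add, Matrix.smul_mulVec]
  · rintro ϑ η ⟨K, hK⟩ ⟨C, hC⟩ U A b hU hUΩ hd ha h0 h1 h2
    refine Pool.Agent.Q162.MO.refine_jen hb hΩ hK hC hU hUΩ (fun m n h => hd m n h) ha
      (fun x hx => h0 x fun n hn => hx (Set.mem_iUnion.2 ⟨n, hn⟩)) h1 h2

end Pool.Agent.Results.MP_515557_an.AffineOnLevelSets
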