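import Pool.Agent.Q187.HN.Ult

/-!
# Morrey's problem on matrices with positive determinant, homogeneous isotropic functions

Let `p < 0` or `p > 2` and let `W` be a function on the real `2 × 2` matrices with positive
determinant which is invariant under left and right rotations and positively homogeneous of degree
`p`; no regularity is assumed.  Suppose that `W` is rank-one convex on the matrices with positive
determinant.  Then `W` is polyconvex there if and only if `W(1) ≥ 0`, equivalently `W ≥ 0`, and in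
this case `W` satisfies the Morrey inequality at every matrix with positive determinant.
-/

set_option autoImplicit false

namespace Pool.Agent.Results.MP_515557_an.DegreeOutsideZeroTwo

open MeasureTheory

/-- the matrix `F₀ + Dϑ(x)` -/
noncomputable def Grad (F₀ : Matrix (Fin 2) (Fin 2) ℝ) (ϑ : (Fin 2 → ℝ) → (Fin 2 → ℝ))
    (x : Fin 2 → ℝ) : Matrix (Fin 2) (Fin 2) ℝ :=
  F₀ + LinearMap.toMatrix'
    ((fderiv ℝ ϑ x : (Fin 2 → ℝ) →L[ℝ] (Fin 2 → ℝ)) : (Fin 2 → ℝ) →ₗ[ℝ] (Fin 2 → ℝ))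

/-- invariance under left and right rotations, on the matrices with positive determinant -/
def IsotropicPos (W : Matrix (Fin 2) (Fin 2) ℝ → ℝ) : Prop :=
  ∀ R ∈ Matrix.specialOrthogonalGroup (Fin 2) ℝ, ∀ Q ∈ Matrix.specialOrthogonalGroup (Fin 2) ℝ,
    ∀ A, 0 < A.det → W (R * A * Q) = W A

/-- positive homogeneity of degree `p`, on the matrices with positive determinant -/
def HomogeneousPos (p : ℝ) (W : Matrix (Fin 2) (Fin 2) ℝ → ℝ) : Prop :=
  ∀ c : ℝ, 0 < c → ∀ A : Matrix (Fin 2) (Fin 2) ℝ, 0 < A.det → W (c • A) = c ^ p * W A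

/-- convexity along the segments in rank-one directions between matrices with positive
determinant -/
def RankOneConvexPos (W : Matrix (Fin 2) (Fin 2) ℝ → ℝ) : Prop :=
  ∀ F H : Matrix (Fin 2) (Fin 2) ℝ, H.rank = 1 → 0 < F.det → 0 < (F + H).det →
    ∀ t : ℝ, 0 ≤ t → t ≤ 1 → W ((1 - t) • F + t • (F + H)) ≤ (1 - t) * W F + t * W (F + H)

/-- the Morrey inequality at matrices `F₀` with positive determinant, for Lipschitz maps `ϑ`
vanishing off a bounded open set `Ω` such that `det (F₀ + Dϑ) > 0` almost everywhere on `Ω` and the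
positive part of `W(F₀ + Dϑ)` is integrable on `Ω` -/
def QuasiconvexPos (W : Matrix (Fin 2) (Fin 2) ℝ → ℝ) : Prop :=
  ∀ F₀ : Matrix (Fin 2) (Fin 2) ℝ, 0 < F₀.det → ∀ Ω : Set (Fin 2 → ℝ),
    IsOpen Ω → Bornology.IsBounded Ω →
    ∀ ϑ : (Fin 2 → ℝ) → (Fin 2 → ℝ), (∃ K, LipschitzWith K ϑ) → (∀ x, x ∉ Ω → ϑ x = 0) →
      (∀ᵐ x ∂(volume.restrict Ω), 0 < (Grad F₀ ϑ x).det) →
      ∫⁻ x in Ω, ENNReal.ofReal (W (Grad F₀ ϑ x)) ≠ ⊤ →
      IntegrableOn (fun x => W (Grad F₀ ϑ x)) Ω ∧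
        W F₀ * (volume Ω).toReal ≤ ∫ x in Ω, W (Grad F₀ ϑ x)

/-- polyconvexity on the matrices with positive determinant: at each of them `W` is supported by a
function which is affine in the entries and the determinant -/
def PolyconvexPos (W : Matrix (Fin 2) (Fin 2) ℝ → ℝ) : Prop :=
  ∀ F₀ : Matrix (Fin 2) (Fin 2) ℝ, 0 < F₀.det → ∃ (B : Matrix (Fin 2) (Fin 2) ℝ) (c : ℝ),
    ∀ A : Matrix (Fin 2) (Fin 2) ℝ, 0 < A.det →
      W F₀ + ∑ i, ∑ j, B i j * (A i j - F₀ i j) + c * (A.det - F₀.det) ≤ W A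

/-- Let `p < 0` or `p > 2`, and let `W` be isotropic, positively homogeneous of degree `p` and
rank-one convex on the real `2 × 2` matrices with positive determinant.  Then `W` is polyconvex
there if and only if `W 1 ≥ 0`, and if `W 1 ≥ 0` then `W ≥ 0` and `W` is quasiconvex there. -/
theorem result {p : ℝ} (hp : p < 0 ∨ 2 < p) (W : Matrix (Fin 2) (Fin 2) ℝ → ℝ)
    (hI : IsotropicPos W) (hH : HomogeneousPos p W) (hR : RankOneConvexPos W) :
    (PolyconvexPos W ↔ 0 ≤ W 1) ∧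
      (0 ≤ W 1 → QuasiconvexPos W ∧ ∀ A : Matrix (Fin 2) (Fin 2) ℝ, 0 < A.det → 0 ≤ W A) := by
  refine ⟨⟨fun hP => Pool.Agent.Q187.HN.nec hp hH (hP 1 (by simp)), fun h1 F₀ h0 => ?_⟩,
    fun h1 => ?_⟩
  · obtain ⟨w, hw, hs, -, -⟩ := Pool.Agent.Q187.HN.all hp hI hH hR h1
    exact Pool.Agent.Q187.HN.poly_of hw h0 (hs _ ((Pool.Agent.Y273.VI.det_cab F₀).1 h0))
  · obtain ⟨w, hw, hs, hm, hn⟩ := Pool.Agent.Q187.HN.all hp hI hH hR h1
    refine ⟨fun F₀ h0 Ω hΩ hb ϑ hϑ hz hpos hfin => ?_, fun A hA => ?_⟩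
    · exact Pool.Agent.Q187.HN.quasi_of hw h0 (hs _ ((Pool.Agent.Y273.VI.det_cab F₀).1 h0))
        ⟨hΩ, hb, hϑ, hz⟩ (hm F₀ Ω ϑ) hpos hfin
    · rw [hw A hA]
      exact hn _ ((Pool.Agent.Y273.VI.det_cab A).1 hA)

end Pool.Agent.Results.MP_515557_an.DegreeOutsideZeroTwo
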