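import Pool.Agent.Q187.VL.Fin

/-!
# Morrey's problem on matrices with positive determinant, compressible Valanis-Landel energies

Let `w` be a continuous function on `(0, ∞)` and `f` an arbitrary function, and let
`W(A) = w(σ₁) + w(σ₂) + f(det A)` for the real `2 × 2` matrices `A` with positive determinant, where
`σ₁ = ‖A‖` (the operator norm) and `σ₂ = det A / ‖A‖` are the singular values of `A`.  If `W` is
rank-one convex on the matrices with positive determinant, then it is polyconvex there, and it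
satisfies the Morrey inequality at every matrix with positive determinant.
-/

set_option autoImplicit false

namespace Pool.Agent.Results.MP_515557_an.ValanisLandel

open MeasureTheory

/-- the matrix `F₀ + Dϑ(x)` -/
noncomputable def Grad (F₀ : Matrix (Fin 2) (Fin 2) ℝ) (ϑ : (Fin 2 → ℝ) → (Fin 2 → ℝ))
    (x : Fin 2 → ℝ) : Matrix (Fin 2) (Fin 2) ℝ :=
  F₀ + LinearMap.toMatrix'
    ((fderiv ℝ ϑ x : (Fin 2 → ℝ) →L[ℝ] (Fin 2 → ℝ)) : (Fin 2 → ℝ) →ₗ[ℝ] (Fin 2 → ℝ))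

/-- convexity along the segments in rank-one directions between matrices with positive
determinant -/
def RankOneConvexPos (W : Matrix (Fin 2) (Fin 2) ℝ → ℝ) : Prop :=
  ∀ F H : Matrix (Fin 2) (Fin 2) ℝ, H.rank = 1 → 0 < F.det → 0 < (F + H).det →
    ∀ t : ℝ, 0 ≤ t → t ≤ 1 → W ((1 - t) • F + t • (F + H)) ≤ (1 - t) * W F + t * W (F + H)

/-- the Morrey inequality at matrices `F₀` with positive determinant, for Lipschitz maps `ϑ`
vanishing off a bounded open set `Ω` such that `det (F₀ + Dϑ) > 0` almost everywhere on `Ω` and the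
positive part of `W(F₀ + Dϑ)` is integrable on `Ω` -/
def QuasiconvexPos (W : Matrix (Fin 2) (Fin 2) ℝ → ℝ) : Prop :=
  ∀ F₀ : Matrix (Fin 2) (Fin 2) ℝ, 0 < F₀.det → ∀ Ω : Set (Fin 2 → ℝ),
    IsOpen Ω → Bornology.IsBounded Ω →
    ∀ ϑ : (Fin 2 → ℝ) → (Fin 2 → ℝ), (∃ K, LipschitzWith K ϑ) → (∀ x, x ∉ Ω → ϑ x = 0) →
      (∀ᵐ x ∂(volume.restrict Ω), 0 < (Grad F₀ ϑ x).det) →
      ∫⁻ x in Ω, ENNReal.ofReal (W (Grad F₀ ϑ x)) ≠ ⊤ →
      IntegrableOn (fun x => W (Grad F₀ ϑ x)) Ω ∧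
        W F₀ * (volume Ω).toReal ≤ ∫ x in Ω, W (Grad F₀ ϑ x)

/-- polyconvexity on the matrices with positive determinant: at each of them `W` is supported by a
function which is affine in the entries and the determinant -/
def PolyconvexPos (W : Matrix (Fin 2) (Fin 2) ℝ → ℝ) : Prop :=
  ∀ F₀ : Matrix (Fin 2) (Fin 2) ℝ, 0 < F₀.det → ∃ (B : Matrix (Fin 2) (Fin 2) ℝ) (c : ℝ),
    ∀ A : Matrix (Fin 2) (Fin 2) ℝ, 0 < A.det →
      W F₀ + ∑ i, ∑ j, B i j * (A i j - F₀ i j) + c * (A.det - F₀.det) ≤ W A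

open scoped Matrix.Norms.L2Operator in
/-- Let `w` be continuous on `(0, ∞)`, let `f` be arbitrary, and let
`W(A) = w(‖A‖) + w(det A / ‖A‖) + f(det A)` for the real `2 × 2` matrices `A` with `det A > 0`,
where `‖A‖` is the operator norm.  If `W` is rank-one convex on these matrices, then it is
polyconvex and quasiconvex there. -/
theorem result (w f : ℝ → ℝ) (hw : ContinuousOn w (Set.Ioi 0))
    (W : Matrix (Fin 2) (Fin 2) ℝ → ℝ)
    (hW : ∀ A : Matrix (Fin 2) (Fin 2) ℝ, 0 < A.det →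
      W A = w ‖A‖ + w (A.det / ‖A‖) + f A.det)
    (hR : RankOneConvexPos W) : PolyconvexPos W ∧ QuasiconvexPos W := by
  have hW' : ∀ A : Matrix (Fin 2) (Fin 2) ℝ, 0 < A.det →
      W A = Pool.Agent.Q187.VL.Gw w f (Pool.Agent.W360.MQ.cab A) := by
    intro A hA
    rw [hW A hA, Pool.Agent.Q187.VL.vl_val w f hA]
  have hRc : Pool.Agent.Y273.VI.RCp (Pool.Agent.Q187.VL.Gw w f) :=
    Pool.Agent.Y273.VI.RCp_of hW' hR
  exact ⟨fun F₀ h0 => Pool.Agent.Q187.HN.poly_of hW' h0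
      (Pool.Agent.Q187.VL.vl_supp hw hRc ((Pool.Agent.Y273.VI.det_cab F₀).1 h0)),
    fun F₀ h0 Ω hΩ hb ϑ hϑ hz hpos hfin => Pool.Agent.Q187.HN.quasi_of hW' h0
      (Pool.Agent.Q187.VL.vl_supp hw hRc ((Pool.Agent.Y273.VI.det_cab F₀).1 h0))
      ⟨hΩ, hb, hϑ, hz⟩ (Pool.Agent.Q187.VL.vl_meas hw hRc F₀) hpos hfin⟩

end Pool.Agent.Results.MP_515557_an.ValanisLandel
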