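import Pool.Agent.Q187.VI.Fin

/-!
# Morrey's problem on matrices with positive determinant, volumetric-isochoric splits

Let `W` be a function of a real `2 × 2` matrix whose values at the matrices with positive
determinant are `h(‖A‖² / det A) + f(det A)`, where `‖A‖` is the operator norm (so the argument of
`h` is the quotient of the singular values, and the first summand is an arbitrary objective,
isotropic and conformally invariant function) and `h, f` are arbitrary functions of one variable,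
without any regularity.  If `W` is rank-one convex on the set of matrices with positive
determinant, then the Morrey inequality holds at every matrix with positive determinant and for
every Lipschitz test map which keeps the determinant positive almost everywhere and for which the
positive part of the energy is integrable.  If moreover `f` is convex, then `W` is polyconvex.
-/

set_option autoImplicit false

namespace Pool.Agent.Results.MP_515557_an.VolumetricIsochoric

open MeasureTheory

/-- the matrix `F₀ + Dϑ(x)` -/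
noncomputable def Grad (F₀ : Matrix (Fin 2) (Fin 2) ℝ) (ϑ : (Fin 2 → ℝ) → (Fin 2 → ℝ))
    (x : Fin 2 → ℝ) : Matrix (Fin 2) (Fin 2) ℝ :=
  F₀ + LinearMap.toMatrix'
    ((fderiv ℝ ϑ x : (Fin 2 → ℝ) →L[ℝ] (Fin 2 → ℝ)) : (Fin 2 → ℝ) →ₗ[ℝ] (Fin 2 → ℝ))

/-- convexity along the segments in rank-one directions between matrices with positive
determinant -/
def RankOneConvexPos (W : Matrix (Fin 2) (Fin 2) ℝ → ℝ) : Prop :=
  ∀ F H : Matrix (Fin 2) (Fin 2) ℝ, H.rank = 1 → 0 < F.det → 0 < (F + H).det →
    ∀ t : ℝ, 0 ≤ t → t ≤ 1 → W ((1 - t) • F + t • (F + H)) ≤ (1 - t) * W F + t * W (F + H)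

/-- the Morrey inequality at matrices `F₀` with positive determinant, for Lipschitz maps `ϑ`
vanishing off a bounded open set `Ω` such that `det (F₀ + Dϑ) > 0` almost everywhere on `Ω` and the
positive part of `W(F₀ + Dϑ)` is integrable on `Ω` -/
def QuasiconvexPos (W : Matrix (Fin 2) (Fin 2) ℝ → ℝ) : Prop :=
  ∀ F₀ : Matrix (Fin 2) (Fin 2) ℝ, 0 < F₀.det → ∀ Ω : Set (Fin 2 → ℝ),
    IsOpen Ω → Bornology.IsBounded Ω →
    ∀ ϑ : (Fin 2 → ℝ) → (Fin 2 → ℝ), (∃ K, LipschitzWith K ϑ) → (∀ x, x ∉ Ω → ϑ x = 0) →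
      (∀ᵐ x ∂(volume.restrict Ω), 0 < (Grad F₀ ϑ x).det) →
      ∫⁻ x in Ω, ENNReal.ofReal (W (Grad F₀ ϑ x)) ≠ ⊤ →
      IntegrableOn (fun x => W (Grad F₀ ϑ x)) Ω ∧
        W F₀ * (volume Ω).toReal ≤ ∫ x in Ω, W (Grad F₀ ϑ x)

/-- polyconvexity on the matrices with positive determinant: at each of them `W` is supported by a
function which is affine in the entries and the determinant -/
def PolyconvexPos (W : Matrix (Fin 2) (Fin 2) ℝ → ℝ) : Prop :=
  ∀ F₀ : Matrix (Fin 2) (Fin 2) ℝ, 0 < F₀.det → ∃ (B : Matrix (Fin 2) (Fin 2) ℝ) (c : ℝ),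
    ∀ A : Matrix (Fin 2) (Fin 2) ℝ, 0 < A.det →
      W F₀ + ∑ i, ∑ j, B i j * (A i j - F₀ i j) + c * (A.det - F₀.det) ≤ W A

open scoped Matrix.Norms.L2Operator in
/-- Let `W(A) = h(‖A‖² / det A) + f(det A)` for all real `2 × 2` matrices `A` with `det A > 0`,
where `‖A‖` is the operator norm of `A` on the Euclidean plane and `h, f` are arbitrary.  If `W` is
rank-one convex on the matrices with positive determinant, then `W` is quasiconvex there, and
polyconvex if `f` is convex on `(0, ∞)`. -/
theorem result (h f : ℝ → ℝ) (W : Matrix (Fin 2) (Fin 2) ℝ → ℝ)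
    (hW : ∀ A : Matrix (Fin 2) (Fin 2) ℝ, 0 < A.det → W A = h (‖A‖ ^ 2 / A.det) + f A.det)
    (hR : RankOneConvexPos W) :
    QuasiconvexPos W ∧ (ConvexOn ℝ (Set.Ioi 0) f → PolyconvexPos W) :=
  ⟨fun F₀ h0 _ hΩ hb _ hϑ hz hpos hfin =>
    Pool.Agent.Q187.VI.gl_main h f W hW hR F₀ h0 ⟨hΩ, hb, hϑ, hz⟩ hpos hfin,
    fun hf F₀ h0 => Pool.Agent.Q187.VI.gl_poly h f W hW hR hf F₀ h0⟩

end Pool.Agent.Results.MP_515557_an.VolumetricIsochoric
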